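import Pool.Agent.W516.MTZ.Stm

/-! # MTZ-PC -/

set_option autoImplicit false

namespace Pool.Agent.W822.MTZ.PC

open Matrix MvPolynomial Pool.Agent.W516.MTZ

variable {m X : Type} [Fintype m] [DecidableEq m] [DecidableEq X]

theorem pow_wt (M : Motive m X) (x : X) (k : ℕ) : ∀ i j, ((M.op x) ^ k) i j ≠ 0 →
    M.wt j = M.wt i + k * M.deg x := by
  induction k with
  | zero =>
    intro i j h
    rw [pow_zero, Matrix.one_apply] at h
    have : i = j := by
      by_contra hij
      rw [if_neg hij] at h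
      exact h rfl
    rw [this]; ring
  | succ k ih =>
    intro i j h
    rw [pow_succ, Matrix.mul_apply] at h
    obtain ⟨l, -, hl⟩ := Finset.exists_ne_zero_of_sum_ne_zero h
    have h1 := ih i l (left_ne_zero_of_mul hl)
    have h2 := M.op_deg x l j (right_ne_zero_of_mul hl)
    rw [h2, h1]; ring

theorem nil (M : Motive m X) (x : X) (c : ℂ) :
    IsNilpotent (c • (M.op x).map (algebraMap ℚ ℂ)) := by
  obtain ⟨W, hW⟩ : ∃ W, ∀ i, M.wt i ≤ W :=
    ⟨Finset.univ.sup M.wt, fun i => Finset.le_sup (Finset.mem_univ i)⟩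
  have h1 : (M.op x) ^ (W + 1) = 0 := by
    ext i j
    rw [Matrix.zero_apply]
    by_contra h
    have h2 := pow_wt M x (W + 1) i j h
    have h3 := hW j
    have h4 := M.deg_pos x
    nlinarith [Nat.mul_le_mul_left (W + 1) h4]
  refine ⟨W + 1, ?_⟩
  rw [smul_pow]
  have h2 : ((M.op x).map (algebraMap ℚ ℂ)) ^ (W + 1) = 0 := by
    have h3 := congrArg ((algebraMap ℚ ℂ).mapMatrix) h1
    rw [map_pow, map_zero] at h3
    exact h3
  rw [h2, smul_zero]

theorem T_PC (h : StFit) : StPC := by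
  intro m X _ _ _ _ M p _ hPC n c a b hc hsum
  obtain ⟨-, -, -, h4, h5⟩ := h m X M
  funext x₀
  rw [Pi.zero_apply]
  -- the polynomial
  set f : MvPolynomial (m × m) ℚ := ∑ x, C (c x) * MvPolynomial.X (M.o, M.s x) - C a -
    C b * (MvPolynomial.X (M.t, M.t)) ^ n with hf
  have hev : ∀ g : Matrix m m ℂ, aeval (crd g) f =
      ∑ x, (c x : ℂ) * g M.o (M.s x) - a - b * (g M.t M.t) ^ n := by
    intro g
    rw [hf]
    simp only [map_sub, map_sum, map_mul, map_pow, aeval_X, aeval_C, crd]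
    simp
  have hfp : aeval (crd (p : Matrix m m ℂ)) f = 0 := by
    rw [hev, hsum]; ring
  have key : ∀ c' : ℂ, (c x₀ : ℂ) * c' = a + b := by
    intro c'
    have hu : IsUnit (IsNilpotent.exp (c' • (M.op x₀).map (algebraMap ℚ ℂ))) :=
      IsNilpotent.isUnit_exp (nil M x₀ c')
    obtain ⟨g, hg⟩ := hu
    have hgG : g ∈ M.gp := Subgroup.subset_closure (Or.inr ⟨c', x₀, hg⟩)
    have h6 := hPC hgG f hfp
    rw [hev, hg, h5, one_pow] at h6
    have h7 : ∑ x, (c x : ℂ) * IsNilpotent.exp (c' • (M.op x₀).map (algebraMap ℚ ℂ)) M.o (M.s x) =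
        (c x₀ : ℂ) * c' := by
      rw [Finset.sum_eq_single x₀]
      · rw [h4, if_pos rfl]
      · intro y _ hy
        rw [h4, if_neg (Ne.symm hy), mul_zero]
      · intro hx
        exact absurd (Finset.mem_univ _) hx
    rw [h7] at h6
    linear_combination h6
  have k0 := key 0
  have k1 := key 1
  rw [mul_zero] at k0
  rw [mul_one, ← k0] at k1
  exact_mod_cast k1

end Pool.Agent.W822.MTZ.PC
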